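import Mathlib
import Pool.Agent.MP_6b3410_lc.H75.Spec

/-!
Cutting proof trees of NAND networks into `r` pieces.
-/

namespace Pool.Agent.MP_6b3410_lc.H64

open Classical Pool.Agent.MP_6b3410_lc.H75

variable {V : Type} {s n : ℕ}

/-- the coordinate read by a variable of the network (none if it is a constant) -/
def lst (pr : V → (Fin n × Bool) ⊕ Bool) (v : V) : List (Fin n) :=
  Sum.elim (fun p : Fin n × Bool => [p.1]) (fun _ => []) (pr v)

/-- proof trees with hypotheses in `Γ` -/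
inductive Pf (a b : Fin s → V ⊕ Fin s) (pr : V → (Fin n × Bool) ⊕ Bool)
    (Γ : Set ((V ⊕ Fin s) × Bool)) (z : Fin n → Bool) :
    (V ⊕ Fin s) × Bool → List (Fin n) → Prop
  | hyp (ν : (V ⊕ Fin s) × Bool) : ν ∈ Γ → Pf a b pr Γ z ν []
  | inp (v : V) : Pf a b pr Γ z (Sum.inl v, app pr z v) (lst pr v)
  | left (g : Fin s) (L : List (Fin n)) : Pf a b pr Γ z (a g, false) L →
      Pf a b pr Γ z (Sum.inr g, true) L
  | right (g : Fin s) (L : List (Fin n)) : Pf a b pr Γ z (b g, false) L →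
      Pf a b pr Γ z (Sum.inr g, true) L
  | both (g : Fin s) (L M : List (Fin n)) : Pf a b pr Γ z (a g, true) L →
      Pf a b pr Γ z (b g, true) M → Pf a b pr Γ z (Sum.inr g, false) (L ++ M)
  | same (g : Fin s) (L : List (Fin n)) : a g = b g → Pf a b pr Γ z (a g, true) L →
      Pf a b pr Γ z (Sum.inr g, false) L

variable {a b : Fin s → V ⊕ Fin s} {pr : V → (Fin n × Bool) ⊕ Bool}

theorem lst_len (v : V) : (lst pr v).length ≤ 1 := by
  unfold lst
  cases pr v <;> simp

theorem Pf.mono {Γ Γ' : Set ((V ⊕ Fin s) × Bool)} {z : Fin n → Bool} {ν L}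
    (h : Pf a b pr Γ z ν L) (hΓ : Γ ⊆ Γ') : Pf a b pr Γ' z ν L := by
  induction h with
  | hyp ν h => exact .hyp ν (hΓ h)
  | inp v => exact .inp v
  | left g L _ ih => exact .left g L ih
  | right g L _ ih => exact .right g L ih
  | both g L M _ _ ih1 ih2 => exact .both g L M ih1 ih2
  | same g L h _ ih => exact .same g L h ih

theorem app_eq {z z' : Fin n → Bool} (v : V) (h : ∀ i ∈ lst pr v, z' i = z i) :
    app pr z' v = app pr z v := by
  unfold app
  unfold lst at h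
  cases hp : pr v with
  | inl p =>
    rw [hp] at h
    simp [h p.1 (by simp)]
  | inr c => simp

theorem Pf.loc {Γ : Set ((V ⊕ Fin s) × Bool)} {z z' : Fin n → Bool} {ν L}
    (h : Pf a b pr Γ z ν L) (hz : ∀ i ∈ L, z' i = z i) : Pf a b pr Γ z' ν L := by
  induction h with
  | hyp ν h => exact .hyp ν h
  | inp v =>
    rw [← app_eq v hz]
    exact .inp v
  | left g L _ ih => exact .left g L (ih hz)
  | right g L _ ih => exact .right g L (ih hz)
  | both g L M _ _ ih1 ih2 =>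
    exact .both g L M (ih1 fun i hi => hz i (List.mem_append_left _ hi))
      (ih2 fun i hi => hz i (List.mem_append_right _ hi))
  | same g L h _ ih => exact .same g L h (ih hz)

theorem Pf.sound {Γ : Set ((V ⊕ Fin s) × Bool)} {z : Fin n → Bool} {ν L}
    (h : Pf a b pr Γ z ν L) (hΓ : ∀ μ ∈ Γ, ∃ M, Cert a b (app pr z) μ.1 μ.2 M) :
    ∃ M, Cert a b (app pr z) ν.1 ν.2 M := by
  induction h with
  | hyp ν h => exact hΓ ν h
  | inp v => exact ⟨_, .inp v⟩
  | left g L _ ih => obtain ⟨M, hM⟩ := ih; exact ⟨_, .left g M hM⟩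
  | right g L _ ih => obtain ⟨M, hM⟩ := ih; exact ⟨_, .right g M hM⟩
  | both g L M _ _ ih1 ih2 =>
    obtain ⟨M1, h1⟩ := ih1
    obtain ⟨M2, h2⟩ := ih2
    exact ⟨_, .both g M1 M2 h1 h2⟩
  | same g L h _ ih => obtain ⟨M, hM⟩ := ih; exact ⟨_, .same g M h hM⟩

theorem pf_of_cert {Γ : Set ((V ⊕ Fin s) × Bool)} {z : Fin n → Bool} {u β L}
    (h : Cert a b (app pr z) u β L) : Pf a b pr Γ z (u, β) (L.flatMap (lst pr)) := by
  induction h with
  | inp v => simpa using Pf.inp v
  | left g L _ ih => exact .left g _ ih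
  | right g L _ ih => exact .right g _ ih
  | both g L M _ _ ih1 ih2 =>
    rw [List.flatMap_append]
    exact .both g _ _ ih1 ih2
  | same g L h _ ih => exact .same g _ h ih

theorem Pf.cut {Γ : Set ((V ⊕ Fin s) × Bool)} {z : Fin n → Bool} {ν L} {l : ℕ} (hl : 1 ≤ l)
    (h : Pf a b pr Γ z ν L) (hL : l < L.length) :
    ∃ μ L1 L2, Pf a b pr Γ z μ L1 ∧ L1.length ≤ l ∧ l < 2 * L1.length ∧
      Pf a b pr (insert μ Γ) z ν L2 ∧ L1.length + L2.length = L.length := by
  induction h with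
  | hyp ν h => simp at hL
  | inp v => have := lst_len (pr := pr) v; omega
  | left g L _ ih =>
    obtain ⟨μ, L1, L2, h1, h2, h3, h4, h5⟩ := ih hL
    exact ⟨μ, L1, L2, h1, h2, h3, .left g _ h4, h5⟩
  | right g L _ ih =>
    obtain ⟨μ, L1, L2, h1, h2, h3, h4, h5⟩ := ih hL
    exact ⟨μ, L1, L2, h1, h2, h3, .right g _ h4, h5⟩
  | same g L h _ ih =>
    obtain ⟨μ, L1, L2, h1, h2, h3, h4, h5⟩ := ih hL
    exact ⟨μ, L1, L2, h1, h2, h3, .same g _ h h4, h5⟩
  | both g L M p1 p2 ih1 ih2 =>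
    rw [List.length_append] at hL ⊢
    by_cases c1 : l < L.length
    · obtain ⟨μ, L1, L2, h1, h2, h3, h4, h5⟩ := ih1 c1
      refine ⟨μ, L1, L2 ++ M, h1, h2, h3,
        .both g _ _ h4 (p2.mono (Set.subset_insert _ _)), ?_⟩
      rw [List.length_append]; omega
    by_cases c2 : l < M.length
    · obtain ⟨μ, L1, L2, h1, h2, h3, h4, h5⟩ := ih2 c2
      refine ⟨μ, L1, L ++ L2, h1, h2, h3,
        .both g _ _ (p1.mono (Set.subset_insert _ _)) h4, ?_⟩
      rw [List.length_append]; omega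
    by_cases c3 : M.length ≤ L.length
    · refine ⟨(a g, true), L, [] ++ M, p1, by omega, by omega,
        .both g _ _ (.hyp _ (Set.mem_insert _ _)) (p2.mono (Set.subset_insert _ _)), by simp⟩
    · refine ⟨(b g, true), M, L ++ [], p2, by omega, by omega,
        .both g _ _ (p1.mono (Set.subset_insert _ _)) (.hyp _ (Set.mem_insert _ _)), ?_⟩
      simp; omega

theorem pieces {z : Fin n → Bool} {l : ℕ} (hl : 1 ≤ l) (r : ℕ) :
    ∀ (Γ : Set ((V ⊕ Fin s) × Bool)) ν L, Pf a b pr Γ z ν L → 2 * L.length ≤ (r + 2) * l →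
      ∃ π : ℕ → (V ⊕ Fin s) × Bool, π r = ν ∧ ∀ j, j ≤ r → ∃ M, M.length ≤ l ∧
        Pf a b pr (Γ ∪ {μ | ∃ i, i < j ∧ π i = μ}) z (π j) M := by
  induction r with
  | zero =>
    intro Γ ν L h hL
    exact ⟨fun _ => ν, rfl, fun j _ => ⟨L, by omega, h.mono Set.subset_union_left⟩⟩
  | succ r ih =>
    intro Γ ν L h hL
    by_cases c : L.length ≤ l
    · exact ⟨fun _ => ν, rfl, fun j _ => ⟨L, c, h.mono Set.subset_union_left⟩⟩
    obtain ⟨μ, L1, L2, h1, h2, h3, h4, h5⟩ := h.cut hl (not_le.mp c)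
    have e : (r + 1 + 2) * l = (r + 2) * l + l := by ring
    obtain ⟨π, hπ, hp⟩ := ih _ ν L2 h4 (by omega)
    refine ⟨fun j => Nat.casesOn j μ π, hπ, fun j hj => ?_⟩
    cases j with
    | zero => exact ⟨L1, h2, h1.mono Set.subset_union_left⟩
    | succ j =>
      obtain ⟨M, hM, hq⟩ := hp j (by omega)
      refine ⟨M, hM, hq.mono ?_⟩
      rintro x ((rfl | hx) | ⟨i, hi, rfl⟩)
      · exact Or.inr ⟨0, by omega, rfl⟩
      · exact Or.inl hx
      · exact Or.inr ⟨i + 1, by omega, rfl⟩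

theorem len_le [Fintype V] [DecidableEq V] {d k : ℕ}
    (hd : ∀ i, (Finset.univ.filter fun e => ∃ σ, pr e = Sum.inl (i, σ)).card ≤ d)
    (L : List V) (hL : ∀ e, L.count e ≤ k) : (L.flatMap (lst pr)).length ≤ d * k * n := by
  have h1 : ∀ v, (lst pr v).length ≤
      ∑ i : Fin n, if ∃ σ, pr v = Sum.inl (i, σ) then 1 else 0 := by
    intro v
    unfold lst
    cases hp : pr v with
    | inl p =>
      refine le_trans ?_ (Finset.single_le_sum (f := fun i : Fin n =>
        if ∃ σ, (Sum.inl p : (Fin n × Bool) ⊕ Bool) = Sum.inl (i, σ) then 1 else 0)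
        (fun _ _ => Nat.zero_le _) (Finset.mem_univ p.1))
      rw [if_pos ⟨p.2, rfl⟩]
      simp
    | inr c => simp
  have h2 : ∑ v, (lst pr v).length ≤ d * n := by
    refine le_trans (Finset.sum_le_sum fun v _ => h1 v) ?_
    rw [Finset.sum_comm]
    refine le_trans (Finset.sum_le_sum (g := fun _ => d) fun i _ => ?_) (by simp [mul_comm])
    rw [← Finset.card_filter]
    exact hd i
  rw [List.length_flatMap, Finset.sum_list_map_count]
  calc ∑ m ∈ L.toFinset, L.count m • (lst pr m).length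
      ≤ ∑ m ∈ L.toFinset, k * (lst pr m).length :=
        Finset.sum_le_sum fun m _ => Nat.mul_le_mul_right _ (hL m)
    _ ≤ ∑ m, k * (lst pr m).length :=
        Finset.sum_le_sum_of_subset (Finset.subset_univ _)
    _ = k * ∑ m, (lst pr m).length := by rw [Finset.mul_sum]
    _ ≤ k * (d * n) := Nat.mul_le_mul_left _ h2
    _ = d * k * n := by ring

/-- the piece number `j` of the pattern `p` -/
def piece (a b : Fin s → V ⊕ Fin s) (pr : V → (Fin n × Bool) ⊕ Bool) (l : ℕ) {r : ℕ}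
    (p : Fin r → (V ⊕ Fin s) × Bool) (j : Fin r) : Set (Fin n → Bool) :=
  {z | ∃ M, M.length ≤ l ∧ Pf a b pr {μ | ∃ i, i < j ∧ p i = μ} z (p j) M}

theorem piece_narrow (l : ℕ) {r : ℕ} (p : Fin r → (V ⊕ Fin s) × Bool) (j : Fin r) :
    Narrow l (piece a b pr l p j) := by
  rintro z ⟨M, hM, h⟩
  exact ⟨M.toFinset, (List.toFinset_card_le M).trans hM, fun z' hz =>
    ⟨M, hM, h.loc fun i hi => hz i (List.mem_toFinset.mpr hi)⟩⟩

theorem piece_sound {l r : ℕ} (p : Fin r → (V ⊕ Fin s) × Bool) {z : Fin n → Bool}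
    (hz : z ∈ ⋂ j, piece a b pr l p j) (j : Fin r) :
    ∃ M, Cert a b (app pr z) (p j).1 (p j).2 M := by
  induction j using WellFoundedLT.induction with
  | ind j ih =>
    obtain ⟨M, -, h⟩ := Set.mem_iInter.mp hz j
    refine h.sound ?_
    rintro μ ⟨i, hi, rfl⟩
    exact ih i hi

theorem decomp : DecompStmt := by
  intro V _ _ s a b o n d k r l pr f hr hl hlen hd hs hc
  obtain ⟨r, rfl⟩ : ∃ r', r = r' + 1 := ⟨r - 1, by omega⟩
  let P : Finset (Fin (r + 1) → (V ⊕ Fin s) × Bool) :=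
    Finset.univ.filter fun p => p (Fin.last r) = (Sum.inr o, true)
  have hP : P.Nonempty := ⟨fun _ => (Sum.inr o, true), by simp [P]⟩
  obtain ⟨p, hp, hmax⟩ := Finset.exists_max_image P
    (fun p => (⋂ j, piece a b pr l p j).ncard) hP
  refine ⟨piece a b pr l p, piece_narrow l p, fun z hz => ?_, ?_⟩
  · obtain ⟨M, hM⟩ := piece_sound p hz (Fin.last r)
    rw [(Finset.mem_filter.mp hp).2] at hM
    exact hs z M hM
  · have hcov : f.toFinset ⊆ P.biUnion fun q => (⋂ j, piece a b pr l q j).toFinset := by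
      intro z hz
      obtain ⟨L, hL, hk⟩ := hc z (Set.mem_toFinset.mp hz)
      have h1 := len_le hd L hk
      obtain ⟨π, hπ, hq⟩ := pieces (a := a) (b := b) (pr := pr) (z := z) hl r ∅ _ _
        (pf_of_cert hL) (le_trans (by omega) hlen)
      refine Finset.mem_biUnion.mpr ⟨fun j => π j, ?_, ?_⟩
      · simp [P, hπ]
      · refine Set.mem_toFinset.mpr (Set.mem_iInter.mpr fun j => ?_)
        obtain ⟨M, hM, h⟩ := hq j (Nat.lt_succ_iff.mp j.2)
        refine ⟨M, hM, h.mono ?_⟩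
        rintro x (hx | ⟨i, hi, rfl⟩)
        · exact absurd hx (Set.notMem_empty _)
        · exact ⟨⟨i, hi.trans j.2⟩, hi, rfl⟩
    have hcard : P.card ≤ (2 * (Fintype.card V + s)) ^ (r + 1) := by
      refine (Finset.card_filter_le _ _).trans ?_
      simp [mul_comm]
    calc f.ncard = f.toFinset.card := Set.ncard_eq_toFinset_card' f
      _ ≤ _ := Finset.card_le_card hcov
      _ ≤ ∑ q ∈ P, (⋂ j, piece a b pr l q j).toFinset.card := Finset.card_biUnion_le
      _ ≤ ∑ q ∈ P, (⋂ j, piece a b pr l p j).ncard := by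
        refine Finset.sum_le_sum fun q hq => ?_
        rw [← Set.ncard_eq_toFinset_card']
        exact hmax q hq
      _ = P.card * (⋂ j, piece a b pr l p j).ncard := by simp
      _ ≤ _ := Nat.mul_le_mul_right _ hcard

end Pool.Agent.MP_6b3410_lc.H64
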